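import Pool.Agent.Q296.Net.Final

/-!
# A slowly switching monomolecular network without evanescent states

Three species `s, a, b`. First environment: `0 → s → a → 2a` (rates 1) and `b → 0` (rate 2);
second environment: the same with `a` and `b` exchanged. The vectors `(1,2,0)` and `(1,0,2)`
satisfy the hypotheses of the question, with `S = {s}`, but the mixed process is irreducible and no
state is evanescent, for every switching rate `κ > 0`.
-/

namespace Pool.Agent.Results.MP_adc20b_pr.NeverEvanescent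

open Q296.Net

theorem result :
    ∃ (R : Fin 2 → List (Reaction 3)) (Q : Matrix (Fin 2) (Fin 2) ℝ)
      (M : Fin 2 → Matrix (Fin 3) (Fin 3) ℝ) (v : Fin 2 → Fin 3 → ℝ) (s : Fin 3),
      (∀ i, IsMonomolecular (R i)) ∧ IsIrreducibleRateMatrix Q ∧
      (∀ i, IsLinearPart (R i) (M i)) ∧
      (∀ i m, 0 ≤ v i m) ∧ (∀ i m, v i m ≠ 0 → 0 < Matrix.vecMul (v i) (M i) m) ∧
      (∀ i, v i s ≠ 0) ∧
      ∀ κ : ℝ, 0 < κ →
        (∀ y y' : State 3 2,
          Relation.ReflTransGen (fun a b => ∃ w : ℝ, 0 < w ∧ (w, b) ∈ jumps R Q κ a) y y') ∧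
        (∀ z : State 3 2, NonExplosive R Q κ z) ∧
        ∀ z : State 3 2, ¬ Evanescent R Q κ z := by
  refine ⟨exR, exQ, exM, exv, 0, monomolecular, irredQ, linearPart, vec_nonneg, vec_pos, ?_, ?_⟩
  · intro i
    fin_cases i <;> simp [exv]
  · intro κ hκ
    exact ⟨irreducible hκ, nonExplosive hκ, notEvanescent hκ⟩

end Pool.Agent.Results.MP_adc20b_pr.NeverEvanescent
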